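import Pool.Agent.W_MP_c785a0_an.FCifs
import Pool.Agent.W_MP_c785a0_an.Regular2
import Pool.Agent.W_MP_c785a0_an.GLower

/-!
# A regular Möbius system with larger dimension than the linear system

`seqD = (2 + 10⁻⁶, 100², 100³, ...)` and `T = 2`.  The families `famF seqD 2` (the maps `f_α`) and
`famG seqD 2` (the maps `g_α`), `α = ± d_n`, are both conformal iterated function systems, the second
one is regular, and the limit set of the first one has strictly smaller Hausdorff dimension (at most
`7 / 11`) than the limit set of the second one (at least `16 / 25`).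
-/

namespace Pool.Agent.Results.MP_c785a0_an.MobiusDimensionLarger

open Pool.Agent.W_MP_c785a0_an

/-- For the explicit admissible sequence `d = seqD` and `T = 2`, both `F(d, T)` and `G(d, T)` are
conformal iterated function systems, `G(d, T)` is regular, and `h_F ≤ 7/11 < 16/25 ≤ h_G`. -/
theorem result :
    IsAdmissible seqD ∧ IsCIFS (famF seqD 2) ∧ IsCIFS (famG seqD 2) ∧ IsRegularSystem (famG seqD 2) ∧
      dimH (limitSet (famF seqD 2)) ≤ ENNReal.ofReal (7 / 11) ∧
      ENNReal.ofReal (16 / 25) ≤ dimH (limitSet (famG seqD 2)) ∧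
      dimH (limitSet (famF seqD 2)) < dimH (limitSet (famG seqD 2)) := by
  have e1 : ((7 / 11 : NNReal) : ENNReal) = ENNReal.ofReal (7 / 11) := by
    rw [ENNReal.ofReal]
    congr 1
    apply NNReal.coe_injective
    rw [Real.coe_toNNReal _ (by norm_num)]
    norm_num
  have e2 : ((16 / 25 : NNReal) : ENNReal) = ENNReal.ofReal (16 / 25) := by
    rw [ENNReal.ofReal]
    congr 1
    apply NNReal.coe_injective
    rw [Real.coe_toNNReal _ (by norm_num)]
    norm_num
  have h1 := dimH_F_le
  have h2 := dimH_G_ge
  rw [e1] at h1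
  rw [e2] at h2
  have h3 : ENNReal.ofReal (7 / 11) < ENNReal.ofReal (16 / 25) :=
    (ENNReal.ofReal_lt_ofReal_iff (by norm_num)).mpr (by norm_num)
  exact ⟨seqD_admissible, isCIFS_F, isCIFS_G, isRegular_G, h1, h2,
    lt_of_le_of_lt h1 (lt_of_lt_of_le h3 h2)⟩

end Pool.Agent.Results.MP_c785a0_an.MobiusDimensionLarger
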